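import Mathlib
import Pool.Agent.Y368.WB.Main

/-!
MP_2c2cb6_an: groups inside automorphism groups of multidimensional subshifts.
Authors: helper368, with helper899 (length function on unitriangular matrices), helper259
(distorted elements), helper317 (limit of the method), on top of the starting library W718.
-/

namespace Pool.Agent.Results.MP_2c2cb6_an.PolynomialGrowthGroups

open Pool.Agent.Y368.WB Pool.Agent.W718 Pointwise

theorem result :
    -- (1) Q1, sharpened: the Heisenberg group embeds into `Aut` of a shift of finite type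
    (∃ (k : ℕ) (X : Shift.Subshift 34 k), IsSFT X ∧ Shift.EmbedsInAut Heis.Heisenberg X) ∧
    -- (2) Q2, sharpened: elements of infinite order distorted to every power `m`
    (∀ m : ℕ, 1 ≤ m → ∃ (G : Type) (_ : Group G) (S : Set G) (g : G),
      S.Finite ∧ Subgroup.closure S = ⊤ ∧ DistortedBy S m g ∧
      ∃ (d k : ℕ) (X : Shift.Subshift d k), 2 ≤ d ∧ Shift.EmbedsInAut G X ∧
        (Group.IsFinitelyPresented G → IsSFT X)) ∧
    -- (3) every finitely generated group with doubling balls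
    (∀ (G : Type) [Group G] (S : Set G), S.Finite → 1 ∈ S → (∀ s ∈ S, s⁻¹ ∈ S) →
      Subgroup.closure S = ⊤ → ∀ C : ℕ,
      (∀ n : ℕ, 1 ≤ n → (S ^ (2 * n)).ncard ≤ C * (S ^ n).ncard) →
      ∃ (d k : ℕ) (X : Shift.Subshift d k), 2 ≤ d ∧ Shift.EmbedsInAut G X ∧
        (Group.IsFinitelyPresented G → IsSFT X)) ∧
    -- (4) every finitely generated group of unitriangular integer matrices
    (∀ (n : ℕ) (Γ : Subgroup (UT n)), Group.FG Γ →
      ∃ (d k : ℕ) (X : Shift.Subshift d k), 2 ≤ d ∧ Shift.EmbedsInAut Γ X ∧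
        (Group.IsFinitelyPresented Γ → IsSFT X)) ∧
    -- (5) every finitely generated group whose nontrivial elements are detected by actions on
    -- spaces with a uniform packing constant `D`; the dimension is `5 (D + 1)`
    (∀ (D L : ℕ) (G : Type) [Group G] (S : Set G), S.Finite → Subgroup.closure S = ⊤ →
      (∀ g : G, g ≠ 1 → ∃ (Ω : Type) (_ : MulAction G Ω) (ρ : Ω → Ω → ℕ), IsMet ρ ∧
        PacksM ρ D ∧ (∀ s ∈ S, ∀ x : Ω, ρ x (s • x) ≤ L) ∧ ∃ x : Ω, g • x ≠ x) →
      ∃ (k : ℕ) (X : Shift.Subshift (5 * (D + 1)) k), Shift.EmbedsInAut G X ∧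
        (Group.IsFinitelyPresented G → IsSFT X)) ∧
    -- (6) every finitely generated group whose nontrivial elements are detected by actions on
    -- `ℤ^d` with generators of displacement at most `R` embeds into `Aut` of a subshift of the
    -- same dimension `d`, and such a group has no element of infinite order which is distorted
    -- beyond the power `d`
    (∀ (d R : ℕ) (G : Type) [Group G] (S : Set G), S.Finite → Subgroup.closure S = ⊤ →
      (∀ g : G, g ≠ 1 → ∃ ρ : G →* Equiv.Perm (Fin d → ℤ),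
        (∀ s ∈ S, ∀ (u : Fin d → ℤ) (i : Fin d), |ρ s u i - u i| ≤ R) ∧ ρ g ≠ 1) →
      (∃ (k : ℕ) (X : Shift.Subshift d k), Shift.EmbedsInAut G X ∧
        (Group.IsFinitelyPresented G → IsSFT X)) ∧
      ∀ g : G, (∀ k : ℕ, 1 ≤ k → g ^ k ≠ 1) → ∀ n : ℕ, ∃ k : ℕ, 1 ≤ k ∧ k ≤ n + 1 ∧
        ∀ w : List G, (∀ s ∈ w, s ∈ S ∨ s⁻¹ ∈ S) → w.prod = g ^ k →
          n < (2 * R * w.length + 1) ^ d) := by
  refine ⟨⟨_, Shift.PS 34 41, Main.heis_sft 34 41, Shift.Phi 34 41, Shift.Phi_injective⟩,
    Main.distorted, ?_, Main.of_ut, Main.schreier, ?_⟩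
  · intro G _ S hS h1 hsym hclo C hC
    obtain ⟨N, D, hN, hD⟩ := Word.word G S hS h1 hsym hclo C hC
    exact Main.of_length G N D hN hD S hS hclo
  · intro d R G _ S hS hclo h
    refine ⟨Ptr.ptr2 d R G S hS hclo h, fun g hg n => ?_⟩
    obtain ⟨ρ, h1, h2⟩ := h (g ^ n.factorial) (hg _ (Nat.factorial_pos n))
    exact Lim2.lim_core' d G S ρ R h1 g n h2

end Pool.Agent.Results.MP_2c2cb6_an.PolynomialGrowthGroups
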